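import Mathlib

set_option autoImplicit false

namespace Pool.Agent.Results.MP_4956c5_co.Cex

open Finset

def IsAPS {M : Type} [Fintype M] (v : M → ℝ) (w a : ℝ) : Prop :=
  IsLeast {z | ∃ p : M → ℝ, (∀ j, 0 ≤ p j) ∧ ∑ j, p j = 1 ∧
    IsGreatest {x | ∃ S : Finset M, ∑ j ∈ S, p j ≤ w ∧ x = ∑ j ∈ S, v j} z} a

def APSFair {n m : ℕ} (w : Fin n → ℝ) (v : Fin n → Fin m → ℝ) (A : Fin m → Fin n) : Prop :=
  ∀ i, ∃ a, IsAPS (v i) (w i) a ∧ a ≤ ∑ j with A j = i, v i j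

def PROP1 {n m : ℕ} (w : Fin n → ℝ) (v : Fin n → Fin m → ℝ) (A : Fin m → Fin n) : Prop :=
  ∀ i, w i * ∑ j, v i j ≤ ∑ j with A j = i, v i j ∨
    ∃ g, A g ≠ i ∧ w i * ∑ j, v i j ≤ ∑ j with A j = i ∨ j = g, v i j

lemma fs (S : Finset (Fin 3)) : S = ∅ ∨ S = {0} ∨ S = {1} ∨ S = {2} ∨ S = {0, 1} ∨ S = {0, 2} ∨
    S = {1, 2} ∨ S = {0, 1, 2} := by
  revert S; decide

theorem result : ∃ (w : Fin 2 → ℝ) (u : Fin 3 → ℝ) (A : Fin 3 → Fin 2),
    (∀ i, 0 < w i) ∧ ∑ i, w i = 1 ∧ (∀ j, 0 < u j) ∧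
    APSFair w (fun _ => u) A ∧ ¬ PROP1 w (fun _ => u) A := by
  refine ⟨![4 / 5, 1 / 5], ![2, 1, 1], ![0, 1, 1], ?_, ?_, ?_, ?_, ?_⟩
  · intro i; fin_cases i <;> simp
  · simp [Fin.sum_univ_two]; norm_num
  · intro j; fin_cases j <;> simp
  · intro i
    fin_cases i
    · refine ⟨2, ⟨⟨![1, 0, 0], ?_, ?_, ⟨{1, 2}, ?_, ?_⟩, ?_⟩, ?_⟩, ?_⟩
      · intro j; fin_cases j <;> simp
      · simp [Fin.sum_univ_three]
      · simp; norm_num
      · simp; norm_num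
      · rintro x ⟨S, h, rfl⟩
        rcases fs S with rfl | rfl | rfl | rfl | rfl | rfl | rfl | rfl <;> simp at h ⊢ <;> linarith
      · rintro z ⟨p, hp, h1, -, h⟩
        rw [Fin.sum_univ_three] at h1
        by_cases c : p 0 ≤ 4 / 5
        · exact h ⟨{0}, by simpa using c, by simp⟩
        · refine h ⟨{1, 2}, ?_, by simp; norm_num⟩
          simp; linarith
      · rw [sum_filter]; simp [Fin.sum_univ_three]
    · refine ⟨0, ⟨⟨fun _ => 1 / 3, ?_, ?_, ⟨∅, ?_, ?_⟩, ?_⟩, ?_⟩, ?_⟩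
      · intro j; norm_num
      · simp
      · simp
      · simp
      · rintro x ⟨S, h, rfl⟩
        rcases fs S with rfl | rfl | rfl | rfl | rfl | rfl | rfl | rfl <;> simp at h ⊢ <;>
          norm_num at h
      · rintro z ⟨p, hp, h1, -, h⟩
        exact h ⟨∅, by simp, by simp⟩
      · rw [sum_filter]; simp [Fin.sum_univ_three]
  · intro h
    rcases h 0 with h | ⟨g, hg, h⟩
    · rw [sum_filter] at h; simp [Fin.sum_univ_three] at h; linarith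
    · rw [sum_filter] at h
      fin_cases g <;> simp [Fin.sum_univ_three] at h hg <;> linarith

end Pool.Agent.Results.MP_4956c5_co.Cex
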